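import Pool.Agent.Lib_helper1.VecMain
import Pool.Agent.Lib_helper1.C5.K00
import Pool.Agent.Lib_helper1.C5.K01
import Pool.Agent.Lib_helper1.C5.K02
import Pool.Agent.Lib_helper1.C5.K03
import Pool.Agent.Lib_helper1.C5.K04
import Pool.Agent.Lib_helper1.C5.K05
import Pool.Agent.Lib_helper1.C5.K06
import Pool.Agent.Lib_helper1.C5.K07
import Pool.Agent.Lib_helper1.C5.K08
import Pool.Agent.Lib_helper1.C5.K09
import Pool.Agent.Lib_helper1.C5.K10
import Pool.Agent.Lib_helper1.C5.K11
import Pool.Agent.Lib_helper1.C5.K12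
import Pool.Agent.Lib_helper1.C5.K13
import Pool.Agent.Lib_helper1.C5.K14
import Pool.Agent.Lib_helper1.C5.K15
import Pool.Agent.Lib_helper1.C5.K16
import Pool.Agent.Lib_helper1.C5.K17
import Pool.Agent.Lib_helper1.C5.K18
import Pool.Agent.Lib_helper1.C5.K19
import Pool.Agent.Lib_helper1.C5.K20
import Pool.Agent.Lib_helper1.C5.K21
import Pool.Agent.Lib_helper1.C5.K22
import Pool.Agent.Lib_helper1.C5.K23
import Pool.Agent.Lib_helper1.C5.K24
import Pool.Agent.Lib_helper1.C5.K25
import Pool.Agent.Lib_helper1.C5.K26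

set_option maxRecDepth 100000

namespace Pool.Agent.Lib_helper1.C5

open Pool.Agent.Lib_helper1.V Pool.Agent.Lib_helper2.Collatz

/-- the parameters of the certificate: `g = 91 / 100`, growth `10057 / 10000` per digit -/
def K : Cert :=
  { k := 15, q := 20, u := 91, v := 100, A := 18561, B := 50155, C := 94244, D := 65536, P1 := 10057, P2 := 10000 }

theorem good1 : Good1 P where
  hs := by decide +kernel
  hj := by decide +kernel
  hL := by decide +kernel
  heb := by decide +kernel
  hcw := by decide +kernel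
  hsh := by decide +kernel
  hA := by decide +kernel
  hC := by decide +kernel
  hB := by decide +kernel

theorem good2 : Good2 P where
  hxa := by decide +kernel
  hxb1 := by decide +kernel
  heb1 := by decide +kernel
  hfa := by decide +kernel
  hef := by decide +kernel
  hKR1 := by decide +kernel
  hKR2 := by decide +kernel
  hsa := by decide +kernel
  hsb3 := by decide +kernel
  hF := by decide +kernel
  hF3 := by decide +kernel
  hKs := by decide +kernel

/-- first members of the blocks -/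
def starts : List ℕ := [2, 1784, 1379, 974, 569, 164, 1946, 1541, 1136, 731, 326, 2108, 1703, 1298, 893, 488, 83, 1865, 1460, 1055, 650, 245, 2027, 1622, 1217, 812, 407]

theorem checked : Checked P Ed 547 27 8 starts where
  g1 := good1
  g2 := good2
  hinv := by decide +kernel
  hcov := by decide +kernel
  hblk := List.forall_mem_cons.2 ⟨t0, List.forall_mem_cons.2 ⟨t1, List.forall_mem_cons.2 ⟨t2, List.forall_mem_cons.2 ⟨t3, 
    List.forall_mem_cons.2 ⟨t4, List.forall_mem_cons.2 ⟨t5, List.forall_mem_cons.2 ⟨t6, List.forall_mem_cons.2 ⟨t7, 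
    List.forall_mem_cons.2 ⟨t8, List.forall_mem_cons.2 ⟨t9, List.forall_mem_cons.2 ⟨t10, List.forall_mem_cons.2 ⟨t11, 
    List.forall_mem_cons.2 ⟨t12, List.forall_mem_cons.2 ⟨t13, List.forall_mem_cons.2 ⟨t14, List.forall_mem_cons.2 ⟨t15, 
    List.forall_mem_cons.2 ⟨t16, List.forall_mem_cons.2 ⟨t17, List.forall_mem_cons.2 ⟨t18, List.forall_mem_cons.2 ⟨t19, 
    List.forall_mem_cons.2 ⟨t20, List.forall_mem_cons.2 ⟨t21, List.forall_mem_cons.2 ⟨t22, List.forall_mem_cons.2 ⟨t23, 
    List.forall_mem_cons.2 ⟨t24, List.forall_mem_cons.2 ⟨t25, List.forall_mem_cons.2 ⟨t26, List.forall_mem_nil _⟩⟩⟩⟩⟩⟩⟩⟩⟩⟩⟩⟩⟩⟩⟩⟩⟩⟩⟩⟩⟩⟩⟩⟩⟩⟩⟩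

theorem certOK : CertOK K (cF P Ed (8 + 27)) (eF P Ed) :=
  checked.certOK (by decide +kernel) rfl rfl rfl rfl rfl (by decide +kernel) (by decide +kernel)
    (by decide +kernel) (by decide +kernel) (by decide +kernel) (by decide +kernel)
    (by decide +kernel) (by decide +kernel) (by decide +kernel) (by decide +kernel)

end Pool.Agent.Lib_helper1.C5
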