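import Pool.Agent.Lib_helper1.C5.D00
import Pool.Agent.Lib_helper1.C5.D01
import Pool.Agent.Lib_helper1.C5.D02
import Pool.Agent.Lib_helper1.C5.D03
import Pool.Agent.Lib_helper1.C5.D04
import Pool.Agent.Lib_helper1.C5.D05

set_option maxRecDepth 100000

namespace Pool.Agent.Lib_helper1.C5

open Pool.Agent.Lib_helper1.V

noncomputable section

/-- the table, by chunks -/
def Ei (i : Nat) : Nat := (cond (Nat.ble i 80) (cond (Nat.ble i 39) (cond (Nat.ble i 19) (cond (Nat.ble i 9) (cond (Nat.ble i 4) (cond (Nat.ble i 1) (cond (Nat.ble i 0) e0 e1) (cond (Nat.ble i 2) e2 (cond (Nat.ble i 3) e3 e4))) (cond (Nat.ble i 6) (cond (Nat.ble i 5) e5 e6) (cond (Nat.ble i 7) e7 (cond (Nat.ble i 8) e8 e9)))) (cond (Nat.ble i 14) (cond (Nat.ble i 11) (cond (Nat.ble i 10) e10 e11) (cond (Nat.ble i 12) e12 (cond (Nat.ble i 13) e13 e14))) (cond (Nat.ble i 16) (cond (Nat.ble i 15) e15 e16) (cond (Nat.ble i 17) e17 (cond (Nat.ble i 18) e18 e19))))) (cond (Nat.ble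 i 29) (cond (Nat.ble i 24) (cond (Nat.ble i 21) (cond (Nat.ble i 20) e20 e21) (cond (Nat.ble i 22) e22 (cond (Nat.ble i 23) e23 e24))) (cond (Nat.ble i 26) (cond (Nat.ble i 25) e25 e26) (cond (Nat.ble i 27) e27 (cond (Nat.ble i 28) e28 e29)))) (cond (Nat.ble i 34) (cond (Nat.ble i 31) (cond (Nat.ble i 30) e30 e31) (cond (Nat.ble i 32) e32 (cond (Nat.ble i 33) e33 e34))) (cond (Nat.ble i 36) (cond (Nat.ble i 35) e35 e36) (cond (Nat.ble i 37) e37 (cond (Nat.ble i 38) e38 e39)))))) (cond (Nat.ble i 59) (cond (Nat.ble i 49) (cond (Nat.ble i 44) (cond (Nat.ble i 41) (cond (Nat.ble i 40) e40 e41) (cond (Nat.ble i 42) e42 (cond (Nat.ble i 43) e43 e44))) (cond (Nat.ble i 46) (cond (Nat.ble i 45) e45 e46) (cond (Nat.ble i 47) e47 (cond (Nat.ble i 48) e48 e49)))) (cond (Nat.ble i 54) (cond (Nat.ble i 51) (cond (Nat.ble i 50) e50 e51) (cond (Nat.ble i 52) e52 (cond (Nat.ble i 53) e53 e54))) (cond (Nat.ble i 56) (cond (Nat.ble i 55) e55 e56) (cond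 (Nat.ble i 57) e57 (cond (Nat.ble i 58) e58 e59))))) (cond (Nat.ble i 69) (cond (Nat.ble i 64) (cond (Nat.ble i 61) (cond (Nat.ble i 60) e60 e61) (cond (Nat.ble i 62) e62 (cond (Nat.ble i 63) e63 e64))) (cond (Nat.ble i 66) (cond (Nat.ble i 65) e65 e66) (cond (Nat.ble i 67) e67 (cond (Nat.ble i 68) e68 e69)))) (cond (Nat.ble i 74) (cond (Nat.ble i 71) (cond (Nat.ble i 70) e70 e71) (cond (Nat.ble i 72) e72 (cond (Nat.ble i 73) e73 e74))) (cond (Nat.ble i 77) (cond (Nat.ble i 75) e75 (cond (Nat.ble i 76) e76 e77)) (cond (Nat.ble i 78) e78 (cond (Nat.ble i 79) e79 e80))))))) (cond (Nat.ble i 120) (cond (Nat.ble i 100) (cond (Nat.ble i 90) (cond (Nat.ble i 85) (cond (Nat.ble i 82) (cond (Nat.ble i 81) e81 e82) (cond (Nat.ble i 83) e83 (cond (Nat.ble i 84) e84 e85))) (cond (Nat.ble i 87) (cond (Nat.ble i 86) e86 e87) (cond (Nat.ble i 88) e88 (cond (Nat.ble i 89) e89 e90)))) (cond (Nat.ble i 95) (cond (Nat.ble i 92) (cond (Nat.ble i 91) e91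 e92) (cond (Nat.ble i 93) e93 (cond (Nat.ble i 94) e94 e95))) (cond (Nat.ble i 97) (cond (Nat.ble i 96) e96 e97) (cond (Nat.ble i 98) e98 (cond (Nat.ble i 99) e99 e100))))) (cond (Nat.ble i 110) (cond (Nat.ble i 105) (cond (Nat.ble i 102) (cond (Nat.ble i 101) e101 e102) (cond (Nat.ble i 103) e103 (cond (Nat.ble i 104) e104 e105))) (cond (Nat.ble i 107) (cond (Nat.ble i 106) e106 e107) (cond (Nat.ble i 108) e108 (cond (Nat.ble i 109) e109 e110)))) (cond (Nat.ble i 115) (cond (Nat.ble i 112) (cond (Nat.ble i 111) e111 e112) (cond (Nat.ble i 113) e113 (cond (Nat.ble i 114) e114 e115))) (cond (Nat.ble i 117) (cond (Nat.ble i 116) e116 e117) (cond (Nat.ble i 118) e118 (cond (Nat.ble i 119) e119 e120)))))) (cond (Nat.ble i 140) (cond (Nat.ble i 130) (cond (Nat.ble i 125) (cond (Nat.ble i 122) (cond (Nat.ble i 121) e121 e122) (cond (Nat.ble i 123) e123 (cond (Nat.ble i 124) e124 e125))) (cond (Nat.ble i 127) (cond (Nat.ble i 126) e126 e127)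 (cond (Nat.ble i 128) e128 (cond (Nat.ble i 129) e129 e130)))) (cond (Nat.ble i 135) (cond (Nat.ble i 132) (cond (Nat.ble i 131) e131 e132) (cond (Nat.ble i 133) e133 (cond (Nat.ble i 134) e134 e135))) (cond (Nat.ble i 137) (cond (Nat.ble i 136) e136 e137) (cond (Nat.ble i 138) e138 (cond (Nat.ble i 139) e139 e140))))) (cond (Nat.ble i 150) (cond (Nat.ble i 145) (cond (Nat.ble i 142) (cond (Nat.ble i 141) e141 e142) (cond (Nat.ble i 143) e143 (cond (Nat.ble i 144) e144 e145))) (cond (Nat.ble i 147) (cond (Nat.ble i 146) e146 e147) (cond (Nat.ble i 148) e148 (cond (Nat.ble i 149) e149 e150)))) (cond (Nat.ble i 155) (cond (Nat.ble i 152) (cond (Nat.ble i 151) e151 e152) (cond (Nat.ble i 153) e153 (cond (Nat.ble i 154) e154 e155))) (cond (Nat.ble i 158) (cond (Nat.ble i 156) e156 (cond (Nat.ble i 157) e157 e158)) (cond (Nat.ble i 159) e159 (cond (Nat.ble i 160) e160 e161))))))))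

/-- the parameters -/
def P : Par :=
  { w := 40, s := 8, j := 7, L := 13, sh := 16, cb := 22, eb := 20,
    A := 18561, B := 50155, C := 94244, q := 20, xb := 26, f := 3, a := 13, sb := 20, F := 262144, a2 := 18, KR := 8654,
    Ks := [(6069, 651), (7051, 13055), (7600, 58481), (7890, 123675), (8040, 180245), (8116, 217562), (8154, 238867), (8173, 250249), (8182, 255818), (8187, 258963), (8190, 260867), (8191, 261505)] }

/-- the table, by low digits -/
def Ed (b : Nat) : Nat := EdOf P (fun x => Ei (idx9 x)) b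

end

end Pool.Agent.Lib_helper1.C5
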